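import Mathlib
import Pool.Agent.helper616_gf.Final

/-!
# Fermat numbers with almost all bases are composite, uniformly for `m = o (log b)`

There are absolute constants `c, C > 0` such that for all `a, m ≥ 1` and `2 ≤ Y ≤ B` the number of the
bases `b ≤ B` for which the generalised Fermat number `a ^ (2 ^ m) + b ^ (2 ^ m)` is a prime, or twice a
prime, or has no odd prime factor `≤ Y`, is at most
`C B ((m + log log (a + 16)) / log Y) ^ c`.

In particular (`a = 1`, `Y = B`) for all but `C B (m / log B) ^ c` of the bases `b ≤ B` the Fermat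
number `b ^ (2 ^ m) + 1` and its half are composite. The bound is uniform in `m`; it tends to zero relative
to `B` as long as `m = o (log B)`, where the exponents `2 ^ m` may be larger than any power of `log B`. Summing
over `m`: for almost all `b` all the numbers `b ^ (2 ^ m) + 1` with `1 ≤ m ≤ (log b) ^ (c / 3)` are composite.

Proof. The primes `p ≡ 1 (mod 2 ^ (m + 1))` that do not divide `a` exclude `2 ^ m` residue classes each. The
starting files contain a theorem of the strength of Linnik's theorem for the classes to moduli without exceptional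
characters (`Pool.Agent.Y353.PS.linP`); the real characters modulo a power of two have conductor at most `8`,
hence there are enough of these primes from `2 ^ (16 (m + 1))` on. Then Brun's pure sieve.
-/

set_option autoImplicit false

namespace Pool.Agent.Results.MP_37e5fa_nt.AlmostAllBases

/-- `a ^ (2 ^ m) + b ^ (2 ^ m)` is a prime, or twice a prime, or has no odd prime factor `≤ Y` -/
def Hard (a m Y b : ℕ) : Prop :=
  (a ^ (2 ^ m) + b ^ (2 ^ m)).Prime ∨ (∃ P : ℕ, P.Prime ∧ a ^ (2 ^ m) + b ^ (2 ^ m) = 2 * P) ∨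
    ∀ p : ℕ, p.Prime → p ≠ 2 → p ∣ a ^ (2 ^ m) + b ^ (2 ^ m) → Y < p

theorem result : ∃ c C : ℝ, 0 < c ∧ 0 < C ∧ ∀ a m Y B : ℕ, 1 ≤ a → 1 ≤ m → 2 ≤ Y → Y ≤ B →
    (Set.ncard {b : ℕ | 1 ≤ b ∧ b ≤ B ∧ Hard a m Y b} : ℝ) ≤
      C * B * ((m + Real.log (Real.log (a + 16))) / Real.log Y) ^ c := by
  classical
  obtain ⟨c, C, hc, hC, h⟩ := Pool.Agent.helper616_gf.main
  refine ⟨c, C, hc, hC, fun a m Y B ha hm hY hYB => le_trans ?_ (h a m Y B ha hm hY hYB)⟩
  rw [← Set.ncard_coe_finset]
  have hsub : {b : ℕ | 1 ≤ b ∧ b ≤ B ∧ Hard a m Y b} ⊆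
      ↑((Finset.range (B + 1)).filter fun n => Pool.Agent.helper616_gf.Hard a m Y n) := by
    rintro b ⟨_, h2, h3⟩
    rw [Finset.mem_coe, Finset.mem_filter, Finset.mem_range]
    exact ⟨by omega, h3⟩
  exact_mod_cast Set.ncard_le_ncard hsub (Finset.finite_toSet _)

end Pool.Agent.Results.MP_37e5fa_nt.AlmostAllBases
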