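import Mathlib
import Pool.Agent.Helper523_NSW.FerG

set_option autoImplicit false

/-!
# The number of prime factors of `⌊β b ^ (2 ^ m)⌋ + 1` for almost every amplitude `β`

For `b ≥ 2` and a real `β > 0` let `N b β m = ⌊β b ^ (2 ^ m)⌋ + 1`; the amplitude `β = 1` gives the
generalised Fermat numbers `b ^ (2 ^ m) + 1`.  All odd prime factors of these are larger than
`2 ^ (m + 1)`.  Let `ω b β m` be the number of the primes larger than `2 ^ (m + 1)` that divide `N b β m`.
We prove that for almost every `β > 0`, for all bases `b ≥ 2` at once,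
`|ω b β m - m log 2| ≤ 8 (m log (m + 1)) ^ (1/2)` for all large `m`.
In particular `N b β m` is composite for all large `m`.
-/

namespace Pool.Agent.Results.MP_37e5fa_nt.AmplitudeLaw

open Filter Topology MeasureTheory

/-- The number `⌊β b ^ (2 ^ m)⌋ + 1`. -/
noncomputable def N (b : ℕ) (β : ℝ) (m : ℕ) : ℕ := ⌊β * (b : ℝ) ^ (2 ^ m)⌋₊ + 1

/-- The number of the primes larger than `2 ^ (m + 1)` that divide `N b β m`. -/
noncomputable def ω (b : ℕ) (β : ℝ) (m : ℕ) : ℕ :=
  ((N b β m).primeFactors.filter (fun q => 2 ^ (m + 1) < q)).card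

lemma N_one (b m : ℕ) : N b 1 m = b ^ (2 ^ m) + 1 := by
  unfold N
  rw [one_mul, ← Nat.cast_pow, Nat.floor_natCast]

/-- the odd prime factors of the generalised Fermat numbers -/
lemma lt_of_dvd {b m q : ℕ} (hq : q.Prime) (h2 : q ≠ 2) (h : q ∣ b ^ (2 ^ m) + 1) :
    2 ^ (m + 1) < q := by
  haveI : Fact q.Prime := ⟨hq⟩
  have hq3 : 2 < q := lt_of_le_of_ne hq.two_le (Ne.symm h2)
  have h1 : ((b : ZMod q)) ^ (2 ^ m) = -1 := by
    have h3 : ((b ^ (2 ^ m) + 1 : ℕ) : ZMod q) = 0 := (ZMod.natCast_eq_zero_iff _ _).2 h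
    push_cast at h3
    exact eq_neg_of_add_eq_zero_left h3
  have hne : (-1 : ZMod q) ≠ 1 := by
    haveI : Fact (2 < q) := ⟨hq3⟩
    exact ZMod.neg_one_ne_one
  have hord : orderOf (b : ZMod q) = 2 ^ (m + 1) := by
    refine orderOf_eq_prime_pow (by rw [h1]; exact hne) ?_
    rw [pow_succ, pow_mul, h1]
    norm_num
  have hb0 : (b : ZMod q) ≠ 0 := by
    intro h0
    rw [h0, zero_pow (by positivity)] at h1
    have : (1 : ZMod q) = 0 := by linear_combination h1
    exact one_ne_zero this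
  have hd := ZMod.orderOf_dvd_card_sub_one hb0
  rw [hord] at hd
  have := Nat.le_of_dvd (by omega) hd
  omega

lemma ω_one (b m : ℕ) :
    ω b 1 m = ((b ^ (2 ^ m) + 1).primeFactors.filter (fun q => q ≠ 2)).card := by
  unfold ω
  rw [N_one]
  congr 1
  refine Finset.filter_congr fun q hq => ?_
  rw [Nat.mem_primeFactors] at hq
  constructor
  · intro h h2
    have : 2 ^ 1 ≤ 2 ^ (m + 1) := Nat.pow_le_pow_right two_pos (by omega)
    omega
  · intro h
    exact lt_of_dvd hq.1 h hq.2.1

/-- The odd prime factors of the generalised Fermat number `b ^ (2 ^ m) + 1 = N b 1 m` are the ones counted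
by `ω b 1 m`; for `b = 2` these are all prime factors of the Fermat number. For almost every
amplitude `β > 0` and all bases `b ≥ 2` the number `ω b β m` is `m log 2` up to an error of at most
`8 (m log (m + 1)) ^ (1/2)` for all large `m`, and `N b β m` is composite for all large `m`. -/
theorem result :
    (∀ b m : ℕ, N b 1 m = b ^ (2 ^ m) + 1 ∧
      ω b 1 m = ((b ^ (2 ^ m) + 1).primeFactors.filter (fun q => q ≠ 2)).card) ∧
    (∀ m : ℕ, ω 2 1 m = (2 ^ (2 ^ m) + 1).primeFactors.card) ∧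
    (∀ᵐ β : ℝ, 0 < β → ∀ b : ℕ, 2 ≤ b →
      (∀ᶠ m : ℕ in atTop, |(ω b β m : ℝ) - m * Real.log 2| ≤ 8 * Real.sqrt (m * Real.log (m + 1))) ∧
      ∀ᶠ m : ℕ in atTop, ¬ (N b β m).Prime) := by
  refine ⟨fun b m => ⟨N_one b m, ω_one b m⟩, fun m => ?_, ?_⟩
  · rw [ω_one]
    congr 1
    refine Finset.filter_true_of_mem fun q hq h2 => ?_
    rw [Nat.mem_primeFactors] at hq
    have h := hq.2.1
    rw [h2] at h
    have h3 : 2 ∣ 2 ^ (2 ^ m) := dvd_pow_self 2 (by positivity)
    omega
  · filter_upwards [Pool.Agent.Helper523_NSW.Fer.seq_law (fun m => m) (fun _ => le_rfl),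
      Pool.Agent.Helper523_NSW.Fer.law] with β hβ hβ' h0 b hb
    refine ⟨?_, ?_⟩
    · filter_upwards [hβ h0 b hb] with m hm
      have hL : 0 ≤ Real.log ((m : ℝ) + 1) := Real.log_nonneg (by
        have : (0 : ℝ) ≤ m := Nat.cast_nonneg m
        linarith)
      refine hm.trans (le_of_eq ?_)
      rw [mul_comm (m : ℝ), Real.sqrt_mul hL]
      ring
    · have h1 : Tendsto (fun m : ℕ => (ω b β m : ℝ) / m) atTop (𝓝 (Real.log 2)) := hβ' h0 b hb
      have hl2 : 1 / 2 < Real.log 2 := by linarith [Real.log_two_gt_d9]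
      filter_upwards [h1.eventually (lt_mem_nhds hl2), eventually_ge_atTop 2] with m hm hm2 hp
      have hm2' : (2 : ℝ) ≤ m := by exact_mod_cast hm2
      rw [lt_div_iff₀ (by linarith)] at hm
      have h2 : (1 : ℝ) < ω b β m := by linarith
      have h3 : 1 < ω b β m := by exact_mod_cast h2
      have h4 : ω b β m ≤ 1 := by
        unfold ω
        rw [hp.primeFactors]
        exact (Finset.card_filter_le _ _).trans (by rw [Finset.card_singleton])
      omega

end Pool.Agent.Results.MP_37e5fa_nt.AmplitudeLaw
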