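import Mathlib
import Pool.Agent.Helper53.FF.Digits2

/-!
# Factorizations of Fermat numbers are not sparse

Let `F_m = 2 ^ (2 ^ m) + 1 = x * y` with `x, y > 1`.

* If `x` and `y` are sums of `k` and of `l` distinct signed powers of two, then `m < 3 (k + l + 1)`. So the
  numbers of signed binary digits of the two factors of a composite Fermat number (in particular the numbers of
  blocks of equal binary digits of the factors) grow at least linearly with `m`.
* More generally let the binary digits of `x` be periodic with period `R` up to `k` exceptions, and those of `y`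
  with period `S` up to `l` exceptions. Then `2 ^ m` is at most `5 ^ (2 k + 2 l + 1) (R + S + 2 k + 2 l)`.
* The same for the numbers `b ^ (2 ^ m) + 1` in base `b`, for all `b ≥ 2` which are not odd powers, and for
  quotients of sparse numbers.
* The reason: for all factorizations of numbers `U b ^ n + V` in two factors with few nonzero signed digits in base
  `b`, where `n` is large in terms of the numbers of digits, the factorization is algebraic: it comes from a
  factorization of the polynomial `U b ^ n X ^ q + V` for some `q ≤ 5 ^ (k + l)` by the substitution `X = 1`.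

Proof. By Dirichlet's theorem all exponents are near to the multiples of `n / q` for one `q ≤ 5 ^ (k + l)`; the
terms of the relation `x y = U b ^ n + V` whose exponents are near to different multiples are far apart, and so the
relation splits. The polynomial `b ^ (2 ^ m) X ^ q + 1` is irreducible for `q < 2 ^ m`.
-/

set_option autoImplicit false

namespace Pool.Agent.Results.MP_37e5fa_nt.SparseFactorizations

open Polynomial

/-- `z` is a sum of at most `k` terms `c * b ^ i`, with different exponents `i` and integers `c` with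
`|c| ≤ H` -/
def Few (b k H : ℕ) (z : ℤ) : Prop :=
  ∃ (s : Finset ℕ) (c : ℕ → ℤ), s.card ≤ k ∧ (∀ i ∈ s, |c i| ≤ H) ∧ z = ∑ i ∈ s, c i * (b : ℤ) ^ i

/-- the digit of `|x|` at `b ^ i`, in base `b` -/
def dig (b : ℕ) (x : ℤ) (i : ℕ) : ℕ := x.natAbs / b ^ i % b

/-- in the expansion of `x` in base `b` (which begins with infinitely many zeros) at most `k` digits
are different from the digit `R` places before it -/
def FewChanges (b R k : ℕ) (x : ℤ) : Prop := Set.encard {i : ℕ | dig b x i ≠ dig b x (i + R)} ≤ k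

theorem result :
    -- sums of signed powers of two
    (∀ (m k l : ℕ) (x y : ℤ), 1 < x → 1 < y → x * y = 2 ^ (2 ^ m) + 1 → Few 2 k 1 x → Few 2 l 1 y →
      m < 3 * (k + l + 1)) ∧
    -- binary digits, periodic up to few exceptions
    (∀ (m k l R S : ℕ) (x y : ℤ), 1 ≤ R → 1 ≤ S → 1 < x → 1 < y → x * y = 2 ^ (2 ^ m) + 1 →
      FewChanges 2 R k x → FewChanges 2 S l y →
      2 ^ m ≤ 5 ^ (k + min k R + (l + min l S) + 1) * (R + S + (k + min k R + (l + min l S)))) ∧
    -- the general base
    (∀ (b m k l H g : ℕ) (x y D E : ℤ), 2 ≤ b → (∀ p : ℕ, p.Prime → p ≠ 2 → ∀ c : ℕ, c ^ p ≠ b) →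
      1 ≤ D → 1 ≤ E → Few b k H (D * x) → Few b l H (E * y) → x * y = (b : ℤ) ^ (2 ^ m) + 1 →
      (k * l + 2) * (H * H) < b ^ g → ((k * l + 2 : ℕ) : ℤ) * (D * E) < (b : ℤ) ^ g →
      x ∣ E ∨ y ∣ D ∨ 2 ^ m ≤ 5 ^ (k + l + 1) * g) ∧
    -- sparse factorizations are algebraic
    (∀ (b k l H n g B : ℕ) (x y U V : ℤ), 2 ≤ b → Few b k H x → Few b l H y →
      x * y = U * (b : ℤ) ^ n + V → H * H ≤ B → |U| ≤ B → |V| ≤ B → (k * l + 2) * B < b ^ g →
      5 ^ (k + l + 1) * g < n →
      ∃ q : ℕ, 1 ≤ q ∧ q ≤ 5 ^ (k + l) ∧ ∃ P Q : ℤ[X], P.eval 1 = x ∧ Q.eval 1 = y ∧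
        P * Q = C (U * (b : ℤ) ^ n) * X ^ q + C V) :=
  ⟨fun _ _ _ _ _ hx1 hy1 hxy hx hy => Pool.Agent.Helper53.FF.fermat_signed hx1 hy1 hxy hx hy,
    fun _ _ _ _ _ _ _ hR hS hx1 hy1 hxy hx hy =>
      Pool.Agent.Helper53.FF.fermat_changes hR hS hx1 hy1 hxy hx hy,
    fun _ _ _ _ _ _ _ _ _ _ hb hodd hD hE hx hy hxy hH hDE =>
      Pool.Agent.Helper53.FF.fermat hb hodd hD hE hx hy hxy hH hDE,
    fun _ _ _ _ _ _ _ _ _ _ _ hb hx hy hxy hH hU hV hB hn =>
      Pool.Agent.Helper53.FF.lift hb hx hy hxy hH hU hV hB hn⟩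

end Pool.Agent.Results.MP_37e5fa_nt.SparseFactorizations
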