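import Mathlib
import Pool.Agent.Helper53.GD.Forms

/-!
# Large divisors of Fermat numbers have no sparse multiples

Let `b ≥ 2` be an integer which is no odd power, for instance `b = 2`, and `F = b ^ (2 ^ m) + 1`.

* If `z` is a sum of at most `k` terms `c b ^ i` with `|c| ≤ H` and not a multiple of `F`, then the greatest
  common divisor of `z` and `F` is at most `(k H b) ^ (N ^ (k - 1)) b ^ (2 ^ (m + 1) / N)` for all `N` with
  `N ^ (k - 1) < 2 ^ m`.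
* So for all `δ > 0` and `H` there is `c > 0` such that for all large `m` and every divisor `x ≥ F ^ δ` of `F`,
  all multiples of `x`, except the multiples of `F`, have more than `c m` terms.
* In particular the larger factor in every factorization of a composite Fermat number, and all its multiples
  which are not multiples of the Fermat number, have more than `c m` signed binary digits.

Proof. By Dirichlet's theorem the exponents are near to the multiples of `2 ^ m / q` for some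
`q ≤ N ^ (k - 1)`. The determinant of the multiplication by the sparse integer in the number field generated by a
root of `X ^ q = - b ^ (- 2 ^ m)` is an integer divisible by the common divisor, small, and not zero.
-/

set_option autoImplicit false

namespace Pool.Agent.Results.MP_37e5fa_nt.SparseMultiples

/-- `z` is a sum of at most `k` terms `c * b ^ i`, with different exponents `i` and integers `c` with
`|c| ≤ H` -/
def Few (b k H : ℕ) (z : ℤ) : Prop :=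
  ∃ (s : Finset ℕ) (c : ℕ → ℤ), s.card ≤ k ∧ (∀ i ∈ s, |c i| ≤ H) ∧ z = ∑ i ∈ s, c i * (b : ℤ) ^ i

lemma base_two : ∀ p : ℕ, p.Prime → p ≠ 2 → ∀ c : ℕ, c ^ p ≠ 2 := by
  intro p hp _ c h
  have h2 := hp.two_le
  rcases Nat.lt_or_ge c 2 with hc | hc
  · have h3 : c ^ p ≤ 1 ^ p := Nat.pow_le_pow_left (by omega) p
    rw [one_pow] at h3
    omega
  · have h3 : 2 ^ p ≤ c ^ p := Nat.pow_le_pow_left hc p
    have h4 : 2 ^ 2 ≤ 2 ^ p := Nat.pow_le_pow_right (by norm_num) h2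
    omega

theorem result :
    -- common divisors with sparse integers
    (∀ b : ℕ, 2 ≤ b → (∀ p : ℕ, p.Prime → p ≠ 2 → ∀ c : ℕ, c ^ p ≠ b) →
      ∀ (m k H N : ℕ) (z : ℤ), 1 ≤ N → N ^ (k - 1) < 2 ^ m → Few b k H z →
        ¬ ((b : ℤ) ^ (2 ^ m) + 1) ∣ z →
        Int.gcd z ((b : ℤ) ^ (2 ^ m) + 1) ≤ (k * H * b) ^ (N ^ (k - 1)) * b ^ (2 * 2 ^ m / N)) ∧
    -- multiples of large divisors
    (∀ b : ℕ, 2 ≤ b → (∀ p : ℕ, p.Prime → p ≠ 2 → ∀ c : ℕ, c ^ p ≠ b) →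
      ∀ (H : ℕ) (δ : ℝ), 0 < δ → ∃ c : ℝ, 0 < c ∧ ∃ m₀ : ℕ, ∀ m : ℕ, m₀ ≤ m →
        ∀ (k : ℕ) (x z : ℤ), x ∣ (b : ℤ) ^ (2 ^ m) + 1 → (b : ℝ) ^ (δ * 2 ^ m) ≤ |(x : ℝ)| → x ∣ z →
        ¬ ((b : ℤ) ^ (2 ^ m) + 1) ∣ z → Few b k H z → c * m < k) ∧
    -- composite Fermat numbers
    (∀ H : ℕ, ∃ c : ℝ, 0 < c ∧ ∃ m₀ : ℕ, ∀ m : ℕ, m₀ ≤ m → ∀ x y : ℤ, 1 < y → y ≤ x →
      x * y = 2 ^ (2 ^ m) + 1 → ∀ (k : ℕ) (z : ℤ), x ∣ z → ¬ ((2 : ℤ) ^ (2 ^ m) + 1) ∣ z →
      Few 2 k H z → c * m < k) := by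
  refine ⟨?_, ?_, ?_⟩
  · intro b hb hodd m k H N z hN hNm hz hnot
    exact Pool.Agent.Helper53.GD.fermat_few hb hodd hN hNm hz hnot
  · intro b hb hodd H δ hδ
    exact Pool.Agent.Helper53.GD.fermat_asym hb hodd hδ
  · intro H
    obtain ⟨c, hc, m₀, h⟩ := Pool.Agent.Helper53.GD.fermat_asym (b := 2) (H := H) le_rfl base_two
      (by norm_num : (0 : ℝ) < 1 / 4)
    refine ⟨c, hc, m₀, ?_⟩
    intro m hm x y hy hyx hxy k z hxz hnot hz
    refine h m hm k x z ⟨y, hxy.symm⟩ ?_ hxz hnot hz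
    have hx : 1 < x := lt_of_lt_of_le hy hyx
    have h1 : (2 : ℤ) ^ (2 ^ m) ≤ x ^ 2 := by nlinarith
    have h2 : (2 : ℤ) ^ (2 ^ m) ≤ x ^ 4 := by
      calc (2 : ℤ) ^ (2 ^ m) ≤ x ^ 2 := h1
        _ ≤ x ^ 4 := pow_le_pow_right₀ (by linarith) (by norm_num)
    have h3 : (2 : ℝ) ^ (2 ^ m) ≤ (x : ℝ) ^ 4 := by exact_mod_cast h2
    have hx0 : (0 : ℝ) < x := by exact_mod_cast (by linarith : (0 : ℤ) < x)
    rw [abs_of_pos hx0]
    push_cast
    have h4 : ((2 : ℝ) ^ (1 / 4 * (2 : ℝ) ^ m)) ^ 4 ≤ (x : ℝ) ^ 4 := by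
      rw [← Real.rpow_natCast, ← Real.rpow_mul (by norm_num)]
      have e3 : 1 / 4 * (2 : ℝ) ^ m * ((4 : ℕ) : ℝ) = ((2 ^ m : ℕ) : ℝ) := by push_cast; ring
      rw [e3, Real.rpow_natCast]
      exact h3
    exact (pow_le_pow_iff_left₀ (by positivity) hx0.le (by norm_num)).1 h4

end Pool.Agent.Results.MP_37e5fa_nt.SparseMultiples
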